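import Pool.Agent.MP_8be872_ag.H49.Sl3C

/-! Restriction of invariants to the slice is surjective on the chart. -/

namespace Pool.Agent.MP_8be872_ag.H49

open H63 Finset H38 H56 MvPolynomial
open scoped Matrix

set_option linter.unusedSectionVars false

variable {Q : Quiv} {w v D : Fin Q.n → ℕ} {J : Type} [Fintype J] [DecidableEq J]
  {lab : Bas Q D → Bas Q v × ℕ} {j₀ : J} {φ : J → G} {t : Pl Q w v D J}

/-- Matrices of polynomials as matrices of operators. -/
noncomputable def mm (M : Matrix (Nb Q w v D) (Nb Q w v D) (Pl Q w v D J)) :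
    Matrix (Nb Q w v D) (Nb Q w v D) (OpQ Q w v D J) := mulA.mapMatrix M

theorem mm_single (a b : Nb Q w v D) :
    mm (J := J) (Matrix.single a b 1) = Matrix.single a b 1 := by
  rw [mm, AlgHom.mapMatrix_apply, Matrix.map_single, map_one]

theorem res_mul (F : Pl Q w v D J) : resO lab * mul F = mul (resS lab F) * resO lab :=
  cl_mul _ F

theorem res_mm (M : Matrix (Nb Q w v D) (Nb Q w v D) (Pl Q w v D J)) :
    Matrix.scalar _ (resO lab) * mm M = mm (M.map (resS lab)) * Matrix.scalar _ (resO lab) := by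
  ext1 p q
  rw [Matrix.scalar_apply, Matrix.diagonal_mul, Matrix.mul_diagonal]
  exact res_mul _

variable (lab) in
/-- The restricted generators. -/
noncomputable def rg : Ix Q w v D J ⊕ Ix Q w v D J → OpQ Q w v D J :=
  Sum.elim (fun e => mul (resS lab (X e))) fun o => gn (.inr o)

theorem res_gn (g : Ix Q w v D J ⊕ Ix Q w v D J) : resO lab * gn g = rg lab g * resO lab := by
  rcases g with e | o
  · exact res_mul _
  · exact H29.compLeft_mul_wedge _ o

theorem rg_eq {k : Kd Q} {p q : Nb Q w v D} (h : shS lab k p q) :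
    rg (J := J) lab (gg k p q) = gn (gg k p q) := by
  rcases k with (ε | _ | _) | k
  · exact congrArg mul (aeval_X _ _)
  · exact congrArg mul (aeval_X _ _)
  · exact congrArg mul ((aeval_X _ _).trans (if_pos (h.2 rfl)))
  · rfl

theorem res_Yg (k : Kd Q) : Matrix.scalar _ (resO (J := J) lab) * Yg (w := w) radF k =
    msk radF (fun k p q => rg lab (gg k p q)) k * Matrix.scalar _ (resO lab) := by
  ext1 p q
  rw [Matrix.scalar_apply, Matrix.diagonal_mul, Matrix.mul_diagonal]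
  unfold Yg msk
  split_ifs
  · exact res_gn _
  · rw [mul_zero, zero_mul]

variable (lab t) in
/-- The lifts of the matrices of generators. -/
noncomputable def rM (k : Kd Q) : Matrix (Nb Q w v D) (Nb Q w v D) (OpQ Q w v D J) :=
  mm (gP lab) * Yg radF k * mm (gN lab t)

theorem rM_mem (h : Wt (Al j₀) (wt bw φ) t
    (-∑ τ, (bw (.inl τ : Nb Q w v D) - bn lab (.inl τ : Nb Q w v D)))) (k : Kd Q)
    (p q : Nb Q w v D) : rM lab t k p q ∈ words fun μ => (sup (Al j₀) μ ∧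
      ws (wt bw φ) μ = bn lab q - bn lab p - cK k) ∧ od μ = k.isRight := by
  rw [rM, Matrix.mul_apply]
  refine Submodule.sum_mem _ fun q' _ => ?_
  rw [Matrix.mul_apply, sum_mul]
  refine Submodule.sum_mem _ fun p' _ => mul_mem_words (mul_mem_words
    (P'' := fun μ => (sup (Al j₀) μ ∧ ws (wt bw φ) μ = bw q' - bn lab p - cK k) ∧ od μ = k.isRight)
    (wt_gP (j₀ := j₀) (φ := φ) p p').ev (Yg_mem j₀ φ k p' q') fun a b ha hb => ?_) (wt_gN h q' q).ev
    fun a b ha hb => ?_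
  · refine ⟨⟨sup_add.2 ⟨ha.1.1, hb.1.1⟩, ?_⟩, by rw [od_add, ha.2, hb.2, Bool.false_xor]⟩
    rw [ws_add, ha.1.2, hb.1.2]
    abel
  · refine ⟨⟨sup_add.2 ⟨ha.1.1, hb.1.1⟩, ?_⟩, by rw [od_add, ha.2, hb.2, Bool.xor_false]⟩
    rw [ws_add, ha.1.2, hb.1.2]
    abel

theorem conj_aux {R : Type} [Ring R] (L g Y g' E : R) (h1 : L * g - g * L = g * E)
    (h2 : L * Y - Y * L = Y * E - E * Y) (h3 : L * g' - g' * L = -(E * g')) :
    L * (g * Y * g') = g * Y * g' * L := by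
  have e : L * (g * Y * g') - g * Y * g' * L = (L * g - g * L) * Y * g' +
      g * (L * Y - Y * L) * g' + g * Y * (L * g' - g' * L) := by noncomm_ring
  rw [← sub_eq_zero, e, h1, h2, h3]
  noncomm_ring

theorem rM_inv (hG : Glob2At Q w v D J) (hM : (Mn (w := w) (J := J) lab).map (resS lab) = 1)
    (ht : Inv t) {a b : Nb Q w v D} (hab : offT a b) (k : Kd Q) (p q : Nb Q w v D) :
    lie radF a b * rM lab t k p q = rM lab t k p q * lie radF a b := by
  obtain ⟨dd, h1, h2⟩ := lie_der hG hab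
  have h3 : ∀ M, Matrix.scalar _ (lie radF a b) * mm M - mm M * Matrix.scalar _ (lie radF a b) =
      mm (M.map dd) := fun M => by
    ext1 p q
    rw [Matrix.sub_apply, Matrix.scalar_apply, Matrix.diagonal_mul, Matrix.mul_diagonal]
    exact h1 _
  have h4 := ht.der hab h1
  have h5 := lie_Yg (J := J) hab k
  obtain ⟨i, x, y, hxy, rfl, rfl⟩ := offT_inl hab
  obtain ⟨h6, h7⟩ := der_g hM dd (fun h => hxy (eq_of_heq (Sigma.mk.inj h).2)) h2 h4
  have h8 := conj_aux _ (mm (gP lab)) _ (mm (gN lab t)) _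
    (by rw [h3, h6, mm, map_mul, ← mm, ← mm, mm_single]) h5
    (by rw [h3, h7, mm, map_neg, map_mul, ← mm, ← mm, mm_single])
  have h9 := congrFun (congrFun h8 p) q
  rwa [Matrix.scalar_apply, Matrix.diagonal_mul, Matrix.mul_diagonal] at h9

theorem rM_res (hM : (Mn (w := w) (J := J) lab).map (resS lab) = 1) {k : Kd Q}
    {p q : Nb Q w v D} (h : shS lab k p q) : ∃ u, u - 1 ∈ Ideal.span {resS lab t - 1} ∧
      resO lab * rM lab t k p q = gn (gg k p q) * mul u * resO lab := by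
  have h1 : Matrix.scalar _ (resO lab) * rM lab t k = msk radF (fun k p q => rg lab (gg k p q)) k *
      mm (Matrix.diagonal (Sum.elim (fun _ => resS lab t) fun _ => 1)) *
        Matrix.scalar _ (resO lab) := by
    rw [rM, ← mul_assoc, ← mul_assoc, res_mm, (res_g (t := t) hM).1, mm, map_one, one_mul, res_Yg,
      mul_assoc, res_mm, (res_g hM).2, mul_assoc]
  have h2 := congrFun (congrFun h1 p) q
  rw [Matrix.scalar_apply, Matrix.diagonal_mul, Matrix.mul_diagonal, mm, AlgHom.mapMatrix_apply,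
    Matrix.diagonal_map (map_zero _), Matrix.mul_diagonal,
    show msk radF (fun k p q => rg (J := J) lab (gg k p q)) k p q = _ from
      (if_pos h.1).trans (rg_eq h)] at h2
  refine ⟨_, ?_, h2⟩
  rcases q with q | q
  · exact Ideal.subset_span rfl
  · simp

variable (lab j₀ φ) in
/-- The relation between a monomial on the slice and the monomials of its lift. -/
def Rl (ω : Ix Q w v D J ⊕ Ix Q w v D J → G) (μ ν : Ix Q w v D J ⊕ Ix Q w v D J → ℕ) : Prop :=
  (∀ g, ν g ≠ 0 → Al j₀ g ∨ (μ g ≠ 0 ∧ ¬ AlS lab g)) ∧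
    (∀ j, μ (.inr (.inr j)) ≤ ν (.inr (.inr j))) ∧ ws (wt bw φ) ν = ws ω μ ∧ od ν = od μ

variable {U : J → Pl Q w v D J} {ψU : J → G} {σ : Bas Q v ≃ Bas Q v} {d : Bas Q v → ℕ}
  {Λ : G →+ G} {s : Pl Q w v D J} {m : J → Bas Q D → ℤ}

variable (lab t U) in
/-- The lifts of the generators. -/
noncomputable def rho : Ix Q w v D J ⊕ Ix Q w v D J → OpQ Q w v D J :=
  ofM (fun k p q => rM lab t k p q) (fun j => gn (.inl (.inr j)) * mul (U j))
    fun j => gn (.inr (.inr j))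

theorem rho_gg (k : Kd Q) (p q : Nb Q w v D) : rho lab t U (gg k p q) = rM lab t k p q :=
  ofM_gg _ _ _ _ _ _

theorem rho_ev (j : J) : rho lab t U (.inr (.inr j)) = gn (.inr (.inr j)) := rfl

theorem rho_mem (hT : Wt (Al j₀) (wt bw φ) t
    (-∑ τ, (bw (.inl τ : Nb Q w v D) - bn lab (.inl τ : Nb Q w v D))))
    (hU : ∀ j, Wt (Al j₀) (wt bw φ) (U j) (ψU j)) : ∀ g, rho lab t U g ∈
      words (Rl lab j₀ φ (wt (bn lab) fun j => φ j - ψU j) (Pi.single g 1)) := by
  refine gen_cases (fun k p q => ?_) (fun j => ?_) fun j => ?_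
  · rw [rho_gg]
    refine words_le (fun ν h => ⟨fun g hg => Or.inl (h.1.1 g hg), fun j => ?_, ?_, ?_⟩)
      (rM_mem hT k p q)
    · rw [Pi.single_eq_of_ne (by cases k <;> simp [gg])]
      exact Nat.zero_le _
    · rw [h.1.2, ws_single, wt_gg]
    · rw [h.2, od_single, gg_isRight]
  · refine mul_mem_words (gn_mem_words (P := fun μ => μ = Pi.single (.inl (.inr j)) 1) rfl)
      (hU j).ev ?_
    rintro _ b rfl hb
    refine ⟨fun g hg => ?_, fun j => Nat.le_add_right _ _, ?_, ?_⟩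
    · by_cases h : g = .inl (.inr j)
      · exact Or.inr ⟨by simp [h], by rw [h]; exact id⟩
      · exact Or.inl (hb.1.1 g (by simpa [h] using hg))
    · rw [ws_add, hb.1.2, ws_single, ws_single]
      change -φ j + ψU j = -(φ j - ψU j)
      abel
    · rw [od_add, hb.2, Bool.xor_false]
  · refine gn_mem_words (g := .inr (.inr j)) (P := Rl lab j₀ φ _ _)
      ⟨fun g hg => Or.inr ⟨hg, ?_⟩, fun _ => le_rfl, ?_, rfl⟩
    · obtain rfl : g = .inr (.inr j) := by_contra fun h => hg (Pi.single_eq_of_ne h _)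
      exact id
    · rw [ws_single, ws_single]
      rfl

theorem Rl.add {ω : Ix Q w v D J ⊕ Ix Q w v D J → G} (μ μ' ν ν' : Ix Q w v D J ⊕ Ix Q w v D J → ℕ)
    (a : Rl lab j₀ φ ω μ ν) (b : Rl lab j₀ φ ω μ' ν') : Rl lab j₀ φ ω (μ + μ') (ν + ν') :=
  ⟨fun g hg => by
    by_cases h : ν g = 0
    · exact (b.1 g (by simpa [h] using hg)).imp id fun e => ⟨by simp [e.1], e.2⟩
    · exact (a.1 g h).imp id fun e => ⟨by simp [e.1], e.2⟩,
    fun j => add_le_add (a.2.1 j) (b.2.1 j), by rw [ws_add, ws_add, a.2.2.1, b.2.2.1],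
    by rw [od_add, od_add, a.2.2.2, b.2.2.2]⟩

theorem rho_inv (hG : Glob2At Q w v D J) (hM : (Mn (w := w) (J := J) lab).map (resS lab) = 1)
    (ht : Inv t) (hU : ∀ j, Inv (U j)) {a b : Nb Q w v D} (hab : offT a b) :
    ∀ g, lie radF a b * rho lab t U g = rho lab t U g * lie radF a b := by
  refine gen_cases (fun k p q => ?_) (fun j => ?_) fun j => ?_
  · rw [rho_gg]
    exact rM_inv hG hM ht hab k p q
  · have := (inv_T j).mul (hU j) a b hab
    rwa [mul_mul] at this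
  · rw [rho_ev]
    exact sub_eq_zero.1 (lie_gn a b (.inr (.inr j)))

theorem rho_res (hM : (Mn (w := w) (J := J) lab).map (resS lab) = 1)
    (hU : ∀ j, resS lab (U j) - 1 ∈ Ideal.span {resS lab t - 1}) :
    ∀ g, ofM (shS lab) ⊤ ⊤ g → ∃ u, u - 1 ∈ Ideal.span {resS lab t - 1} ∧
      resO lab * rho lab t U g = gn g * mul u * resO lab := by
  refine gen_cases (fun k p q h => ?_) (fun j _ => ⟨_, hU j, ?_⟩) fun j _ => ⟨1, by simp, ?_⟩
  · rw [ofM_gg] at h
    rw [rho_gg]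
    exact rM_res hM h
  · have := res_mul (lab := lab) (X (.inr j) * U j)
    rwa [map_mul, res_T, mul_mul, mul_mul] at this
  · rw [show (mul 1 : OpQ Q w v D J) = 1 from map_one mulA, mul_one, rho_ev]
    exact res_gn (.inr (.inr j))

theorem cech_ok {J₀ J₁ : Finset J} {μ : Ix Q w v D J ⊕ Ix Q w v D J → ℕ}
    (hμ : cech (AlS lab) J₀ J₁ μ) : sup (ofM (shS lab) ⊤ ⊤) μ := by
  refine gen_cases (fun k p q hg => ?_) (fun _ _ => trivial) fun _ _ => trivial
  rcases hμ.1 _ hg with h | ⟨j, e, -⟩ | ⟨j, -, e⟩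
  · rw [AlS, ofM_gg] at h
    rwa [ofM_gg]
  · cases k <;> exact nomatch e
  · cases k <;> exact nomatch e

theorem cech_T {J₀ J₁ : Finset J} {μ : Ix Q w v D J ⊕ Ix Q w v D J → ℕ}
    (hμ : cech (AlS lab) J₀ J₁ μ) {j : J} (hj : μ (.inl (.inr j)) ≠ 0) : j ∈ J₀ ∪ J₁ := by
  rcases hμ.1 _ hj with h | ⟨j', e, h⟩ | ⟨j', -, e⟩
  · exact h.elim
  · obtain rfl : j = j' := Sum.inr.inj (Sum.inl.inj e)
    rcases hμ.1 _ h with h | ⟨j', e, -⟩ | ⟨j', h, e⟩
    · exact h.elim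
    · exact nomatch e
    · rwa [Sum.inr.inj (Sum.inr.inj e)]
  · exact nomatch e

theorem cech_lift {J₀ J₁ : Finset J} (hj₀ : j₀ ∈ J₀) {ω : Ix Q w v D J ⊕ Ix Q w v D J → G}
    {a μ ν : Ix Q w v D J ⊕ Ix Q w v D J → ℕ} (hμ : cech (AlS lab) J₀ J₁ μ)
    (ha : sup (Al j₀) a) (h : Rl lab j₀ φ ω μ ν) : cech (AlG radF) J₀ J₁ (a + ν) := by
  have he : ∀ j, μ (ev j) ≠ 0 → (a + ν) (ev j) ≠ 0 := fun j h' =>
    (lt_of_lt_of_le (Nat.pos_of_ne_zero h') ((h.2.1 j).trans (Nat.le_add_left _ _))).ne'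
  refine ⟨fun g hg => ?_, fun j hj => he j (hμ.2.1 j hj), hμ.2.2.imp he⟩
  have h5 : Al j₀ g ∨ (μ g ≠ 0 ∧ ¬ AlS lab g) := by
    by_cases h0 : a g = 0
    · exact h.1 g (by simpa [h0] using hg)
    · exact Or.inl (ha g h0)
  rcases h5 with (h5 | h5) | h5
  · exact Or.inl h5
  · exact Or.inr (Or.inl ⟨j₀, h5, he _ (hμ.2.1 _ hj₀)⟩)
  · exact Or.inr (((hμ.1 g h5.1).resolve_left h5.2).imp_left
      fun ⟨j, e1, e2⟩ => ⟨j, e1, he j e2⟩)

theorem xi_om (h : ∀ j τ, xi (.inl τ : Nb Q w v D) (ψU j) = xi (.inl τ : Nb Q w v D) (φ j))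
    (τ : Bas Q D) (μ : Ix Q w v D J ⊕ Ix Q w v D J → ℕ) :
    xi (.inl τ : Nb Q w v D) (ws (wt (bn lab) fun j => φ j - ψU j) μ) = 0 := by
  rw [map_ws, ws_congr (c' := 0) fun g _ => ?_]
  · simp [ws]
  refine gen_cases (P := fun g => xi (.inl τ : Nb Q w v D)
    (wt (bn lab) (fun j => φ j - ψU j) g) = 0) (fun k p q => ?_) (fun j => ?_)
    (fun j => map_zero _) g
  · rw [wt_gg, map_sub, map_sub, xi_bn, xi_bn, xi_free (free_cK k)]
    rfl
  · change xi _ (-(φ j - ψU j)) = 0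
    rw [map_neg, map_sub, h, sub_self, neg_zero]

theorem lam_om (hΛ : LamOK (w := w) σ d lab Λ) (h : ∀ j, Λ (ψU j) = 0) {φ' : J → G}
    {μ : Ix Q w v D J ⊕ Ix Q w v D J → ℕ} (h' : ∀ j, μ (.inl (.inr j)) ≠ 0 → φ' j = Λ (φ j)) :
    Λ (ws (wt (bn lab) fun j => φ j - ψU j) μ) = ws (wt (xs σ d lab) φ') μ := by
  rw [map_ws]
  refine ws_congr fun g => gen_cases (P := fun g => μ g ≠ 0 →
    Λ (wt (bn lab) (fun j => φ j - ψU j) g) = wt (xs σ d lab) φ' g)
    (fun k p q _ => ?_) (fun j hj => ?_) (fun j _ => map_zero _) g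
  · rw [wt_gg, wt_gg, map_sub, map_sub, lam_bn hΛ, lam_bn hΛ, hΛ.fix _ (free_cK k)]
  · change Λ (-(φ j - ψU j)) = -φ' j
    rw [map_neg, map_sub, h, sub_zero, h' j hj]

theorem sl3 (_ : Glob1Stmt) (hG : Glob2Stmt) (hS : SemiStmt) (_ : SlWStmt) : Sl3Stmt := by
  rintro Q w v D J _ _ σ d lab Λ f f' φ φ' J₀ J₁ γ H ⟨j₀, hj₀, F, ψ, hF, hf⟩ p y hy
  replace hG := hG Q w v D J
  have hM := res_Mn H.isLab (((hS Q w v D J).2.1 d lab H.isLab).2.2 ka rfl)
  have hT := un_inv (φ := φ) H.lam hM hF (hf ▸ (H.semi j₀).1 : Homog (F * (Mn lab).det) (φ j₀))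
  have h2 : resS lab (F * X (.inr j₀)) = f' j₀ * X (.inr j₀) := by
    rw [(H.res j₀ (mem_union_left _ hj₀)).1, hf, map_mul, map_mul, res_T,
      show resS lab (minorP lab (Ypol ka)) = 1 from (det_ne hM).1, mul_one]
  generalize F * X (.inr j₀) = t at hT h2
  have hU : ∀ η, Const w v D 0 η → ∃ U ψ,
      Un lab Λ j₀ φ (resS lab t) (fun τ => xi (.inl τ : Nb Q w v D) η) U ψ := fun η h =>
    mem_of_vert (UnS lab Λ j₀ φ (resS lab t)) (un_vert hG H.lam hM) ⟨_, _, hT⟩ _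
      fun τ τ' e => h _ _ rfl rfl e
  choose U ψU hU' using fun j => hU (φ j) (H.semi j).2.1
  obtain ⟨U₀, ψ₀, h₀⟩ := hU γ H.const
  have hg := rho_mem hT.wt fun j => (hU' j).wt
  have hc : ∀ g h, rho lab t U g * rho lab t U h =
      sg (g.isRight && h.isRight) • (rho lab t U h * rho lab t U g) := fun g h =>
    words_comm (words_le (fun _ a => a.2.2.2.trans (od_single g)) (hg g))
      (words_le (fun _ a => a.2.2.2.trans (od_single h)) (hg h))
  have hl := words_one_mem (lift_mem hc (Rl := Rl lab j₀ φ _)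
    ⟨fun _ h => absurd rfl h, fun _ => le_rfl, by rw [ws_zero, ws_zero], rfl⟩ Rl.add hg hy)
  have hx : mul U₀ (lift (rho lab t U) y one) ∈ ZZ (AlG radF) (wt bw φ) J₀ J₁ γ p := by
    refine words_apply_mem h₀.wt.ev hl ?_
    rintro a ν ha ⟨μ, ⟨hμ, hw, hp⟩, h1⟩
    refine ⟨cech_lift hj₀ hμ ha.1.1 h1, ?_, by rw [od_add, ha.2, h1.2.2.2, hp, Bool.false_xor]⟩
    rw [ws_add, ha.1.2, h1.2.2.1, ← sub_eq_zero]
    refine H.lam.inj _ (fun τ => ?_) ?_
    · rw [map_sub, map_add, h₀.xi, xi_om fun j => (hU' j).xi, add_zero, sub_self]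
    · rw [map_sub, map_add, h₀.lam, zero_add, lam_om H.lam (fun j => (hU' j).lam)
        fun j hj => (H.res j (cech_T hμ hj)).2, hw, sub_self]
  refine ⟨_, ⟨hx, ?_⟩, fin_rel _ h2 h₀.res (mono_le (fun μ h => h.1.2.1 j₀ hj₀) hy)
    (mono_le (fun μ h => h.1.2.1 j₀ hj₀) hx) (lift_res hc _ (cl_one _)
      (rho_res hM fun j => (hU' j).res) (mono_le (fun μ h => cech_ok h.1) hy))⟩
  refine (Submodule.mem_iInf _).2 fun a => (Submodule.mem_iInf _).2 fun b =>
    (Submodule.mem_iInf _).2 fun hab => Submodule.mem_comap.2 ?_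
  have h3 : lie radF a b * (mul U₀ * lift (rho lab t U) y) =
      mul U₀ * lift (rho lab t U) y * lie radF a b := by
    rw [← mul_assoc, h₀.inv a b hab, mul_assoc,
      lift_comm hc (rho_inv hG hM hT.inv (fun j => (hU' j).inv) hab), mul_assoc]
  have h4 := LinearMap.congr_fun h3 one
  simp only [Module.End.mul_apply] at h4
  rw [h4, show lie (J := J) radF a b one = 0 from vf_one, map_zero, map_zero]
  exact Submodule.zero_mem _

end Pool.Agent.MP_8be872_ag.H49
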