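import Pool.Agent.MP_8be872_ag.H63.ApiC

/-! Homogeneous polynomials, determinants and substitutions in the free supercommutative algebra. -/

namespace Pool.Agent.MP_8be872_ag.H49

open H63 Finset H38 H56 MvPolynomial
open scoped Matrix

set_option linter.unusedSectionVars false

section Jac

variable {R n : Type} [CommRing R] [Algebra ℂ R] [Fintype n] [DecidableEq n]
  (dd : Derivation ℂ R R)

omit [Fintype n] in
theorem der_prod (s : Finset n) (x : n → R) :
    dd (∏ i ∈ s, x i) = ∑ c ∈ s, (∏ i ∈ s.erase c, x i) * dd (x c) := by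
  induction s using Finset.induction_on with
  | empty => simp
  | insert a s ha ih =>
    rw [prod_insert ha, sum_insert ha, erase_insert ha, Derivation.leibniz, ih, smul_eq_mul,
      smul_eq_mul, add_comm, mul_sum]
    congr 1
    refine sum_congr rfl fun c hc => ?_
    have hac : a ≠ c := fun h => ha (h ▸ hc)
    rw [erase_insert_of_ne hac, prod_insert fun h => ha (mem_of_mem_erase h), mul_assoc]

theorem der_det (M : Matrix n n R) :
    dd M.det = ∑ c, (M.updateCol c fun r => dd (M r c)).det := by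
  simp only [Matrix.det_apply', map_sum]
  rw [sum_comm]
  refine sum_congr rfl fun σ _ => ?_
  rw [Derivation.leibniz, Derivation.map_intCast, smul_zero, add_zero, der_prod, smul_eq_mul,
    mul_sum]
  refine sum_congr rfl fun c _ => ?_
  rw [← prod_erase_mul univ _ (mem_univ c), Matrix.updateCol_self]
  congr 2
  exact prod_congr rfl fun i hi => (Matrix.updateCol_ne (ne_of_mem_erase hi)).symm

theorem der_det_zero (M : Matrix n n R)
    (h : ∀ c, (∀ r, dd (M r c) = 0) ∨ ∃ a, a ≠ c ∧ ∀ r, dd (M r c) = M r a) : dd M.det = 0 := by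
  rw [der_det]
  refine sum_eq_zero fun c _ => ?_
  rcases h c with h | ⟨a, ha, h⟩
  · exact Matrix.det_eq_zero_of_column_eq_zero c fun r => by rw [Matrix.updateCol_self, h]
  · exact Matrix.det_zero_of_column_eq ha fun r => by
      rw [Matrix.updateCol_self, h, Matrix.updateCol_ne ha]

theorem der_mul (A B : Matrix n n R) : (A * B).map dd = A.map dd * B + A * B.map dd := by
  ext i j
  simp only [Matrix.map_apply, Matrix.mul_apply, Matrix.add_apply, map_sum, Derivation.leibniz,
    smul_eq_mul, ← sum_add_distrib]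
  exact sum_congr rfl fun k _ => by ring

theorem der_one : (1 : Matrix n n R).map dd = 0 := by
  ext i j
  rw [Matrix.map_apply, Matrix.one_apply]
  split_ifs <;> simp

theorem der_pow (A E : Matrix n n R) (h : A.map dd = A * E - E * A) (k : ℕ) :
    (A ^ k).map dd = A ^ k * E - E * A ^ k := by
  induction k with
  | zero => simp [der_one]
  | succ k ih =>
    rw [pow_succ, der_mul, ih, h]
    noncomm_ring

theorem der_adj [IsDomain R] (M E : Matrix n n R) (h : M.map dd = M * E) (h0 : dd M.det = 0)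
    (h1 : M.det ≠ 0) : M.adjugate.map dd = -(E * M.adjugate) := by
  have h2 := der_mul dd M M.adjugate
  have h3 : (M.det • (1 : Matrix n n R)).map dd = 0 := by
    ext i j
    rw [Matrix.map_apply, Matrix.smul_apply, Matrix.one_apply]
    split_ifs <;> simp [h0]
  rw [Matrix.mul_adjugate, h3, h, Matrix.mul_assoc, ← Matrix.mul_add] at h2
  have h4 := congrArg (M.adjugate * ·) h2
  simp only [Matrix.mul_zero, ← Matrix.mul_assoc, Matrix.adjugate_mul, Matrix.smul_mul,
    Matrix.one_mul] at h4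
  exact eq_neg_of_add_eq_zero_right ((smul_eq_zero.1 h4.symm).resolve_left h1)

end Jac

variable {E O : Type} [Fintype E] [Fintype O] [DecidableEq E] [DecidableEq O]
  {Γ : Type} [AddCommGroup Γ] {A : E ⊕ O → Prop} {c : E ⊕ O → Γ}

theorem ws_congr {c c' : E ⊕ O → Γ} {μ : E ⊕ O → ℕ} (h : ∀ g, μ g ≠ 0 → c g = c' g) :
    ws c μ = ws c' μ :=
  sum_congr rfl fun g _ => by
    by_cases h1 : μ g = 0
    · rw [h1, zero_smul, zero_smul]
    · rw [h g h1]

/-- A polynomial in the generators `A` of weight `ψ`. -/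
def Wt (A : E ⊕ O → Prop) (c : E ⊕ O → Γ) (F : MvPolynomial E ℂ) (ψ : Γ) : Prop :=
  (mul F : Module.End ℂ (Sp E O)) ∈ words fun μ => sup A μ ∧ ws c μ = ψ

variable {F F' : MvPolynomial E ℂ} {ψ ψ' : Γ}

theorem Wt.of_eq (h : Wt A c F ψ) (e : ψ = ψ') : Wt A c F ψ' := e ▸ h

theorem Wt.mul (h : Wt A c F ψ) (h' : Wt A c F' ψ') : Wt A c (F * F') (ψ + ψ') := by
  unfold Wt
  rw [mul_mul]
  exact mul_mem_words h h' fun a b ha hb => ⟨sup_add.2 ⟨ha.1, hb.1⟩, by rw [ws_add, ha.2, hb.2]⟩

theorem Wt.zero : Wt A c 0 ψ := by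
  change mulA 0 ∈ _
  rw [map_zero]
  exact Submodule.zero_mem _

theorem Wt.const (a : ℂ) : Wt A c (C a) 0 := by
  unfold Wt
  rw [mul_C, Algebra.algebraMap_eq_smul_one]
  exact Submodule.smul_mem _ _ (one_mem_words ⟨fun _ h => absurd rfl h, ws_zero c⟩)

theorem Wt.one : Wt A c 1 0 := Wt.const 1

theorem Wt.var (e : E) (h : A (.inl e)) : Wt A c (X e) (c (.inl e)) :=
  gn_mem_words (g := .inl e) ⟨sup_single.2 h, ws_single c _⟩

theorem Wt.sum {ι : Type} (s : Finset ι) {x : ι → MvPolynomial E ℂ}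
    (h : ∀ i ∈ s, Wt A c (x i) ψ) : Wt A c (∑ i ∈ s, x i) ψ := by
  change mulA _ ∈ _
  rw [map_sum]
  exact Submodule.sum_mem _ h

theorem Wt.prod {ι : Type} (s : Finset ι) {x : ι → MvPolynomial E ℂ} {a : ι → Γ}
    (h : ∀ i ∈ s, Wt A c (x i) (a i)) : Wt A c (∏ i ∈ s, x i) (∑ i ∈ s, a i) := by
  classical
  induction s using Finset.induction_on with
  | empty => exact Wt.one
  | insert i s hi ih =>
    rw [prod_insert hi, sum_insert hi]
    exact (h i (mem_insert_self i s)).mul (ih fun j hj => h j (mem_insert_of_mem hj))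

theorem Wt.pow (h : Wt A c F ψ) (k : ℕ) : Wt A c (F ^ k) (k • ψ) := by
  induction k with
  | zero => exact Wt.one.of_eq (zero_smul _ _).symm
  | succ k ih =>
    rw [pow_succ, succ_nsmul]
    exact ih.mul h

theorem Wt.det {n : Type} [Fintype n] [DecidableEq n] {M : Matrix n n (MvPolynomial E ℂ)}
    {a b : n → Γ} (h : ∀ i j, Wt A c (M i j) (a j - b i)) : Wt A c M.det (∑ i, (a i - b i)) := by
  rw [Matrix.det_apply']
  refine Wt.sum _ fun σ _ => ?_
  rw [← map_intCast (C : ℂ →+* MvPolynomial E ℂ)]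
  refine ((Wt.const _).mul (Wt.prod _ fun i _ => h (σ i) i)).of_eq ?_
  rw [zero_add, sum_sub_distrib, sum_sub_distrib, Equiv.sum_comp σ b]

theorem Wt.adj {n : Type} [Fintype n] [DecidableEq n] {M : Matrix n n (MvPolynomial E ℂ)}
    {a b : n → Γ} (h : ∀ i j, Wt A c (M i j) (a j - b i)) (i j : n) :
    Wt A c (M.adjugate i j) (∑ i, (a i - b i) + (b j - a i)) := by
  rw [Matrix.adjugate_apply]
  refine (Wt.det (a := a) (b := Function.update b j (a i)) fun r s => ?_).of_eq ?_
  · by_cases hr : r = j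
    · rw [hr, Matrix.updateRow_self, Function.update_self, Pi.single_apply]
      split_ifs with hs
      · exact Wt.one.of_eq (by rw [hs, sub_self])
      · exact Wt.zero
    · rw [Matrix.updateRow_ne hr, Function.update_of_ne hr]
      exact h r s
  · rw [sum_sub_distrib, sum_sub_distrib, sum_update_of_mem (mem_univ j),
      ← add_sum_erase univ b (mem_univ j), sdiff_singleton_eq_erase]
    abel

theorem Wt.uniq (h : Wt A c F ψ) (h' : Wt A c F ψ') (h0 : F ≠ 0) : ψ = ψ' := by
  by_contra hne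
  have h1 := eq_zero_of_mem_mono (words_one_mem h) (words_one_mem h') fun μ a b =>
    hne (a.2.symm.trans b.2)
  rw [mul_one_eq] at h1
  exact h0 (by simpa [pol] using congrFun h1 ∅)

theorem Wt.ev (h : Wt A c F ψ) : (H63.mul F : Module.End ℂ (Sp E O)) ∈
    words fun μ => (sup A μ ∧ ws c μ = ψ) ∧ od μ = false := words_and h (mul_mem_even F)

variable {ρ : E ⊕ O → Module.End ℂ (Sp E O)}

theorem lift_mem (hρ : ∀ g h, ρ g * ρ h = sg (g.isRight && h.isRight) • (ρ h * ρ g))
    {Rl : (E ⊕ O → ℕ) → (E ⊕ O → ℕ) → Prop} (h0 : Rl 0 0)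
    (ha : ∀ μ μ' ν ν', Rl μ ν → Rl μ' ν' → Rl (μ + μ') (ν + ν'))
    (hg : ∀ g, ρ g ∈ words (Rl (Pi.single g 1))) {P : (E ⊕ O → ℕ) → Prop} {y : Sp E O}
    (hy : y ∈ mono P) : lift ρ y ∈ words fun ν => ∃ μ, P μ ∧ Rl μ ν := by
  have key : ∀ l : List (E ⊕ O), (l.map ρ).prod ∈ words (Rl fun g => l.count g) := by
    intro l
    induction l with
    | nil => exact one_mem_words h0
    | cons g l ih =>
      rw [List.map_cons, List.prod_cons, count_consB]
      exact mul_mem_words (hg g) ih fun a b => ha _ _ _ _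
  refine map_mem_of_bas (fun S m hm => ?_) hy
  obtain ⟨l, h1, h2⟩ := bas_eq_word S m
  rw [h2, apiC_word hρ, lift_one, mul_one]
  exact words_le (fun ν hν => ⟨_, hm, h1 ▸ hν⟩) (key l)

theorem lift_comm (hρ : ∀ g h, ρ g * ρ h = sg (g.isRight && h.isRight) • (ρ h * ρ g))
    {L : Module.End ℂ (Sp E O)} (h : ∀ g, L * ρ g = ρ g * L) (y : Sp E O) :
    L * lift ρ y = lift ρ y * L := by
  have := mono_ind (A := fun _ : E ⊕ O => True) (C := LinearMap.eqLocus
    (LinearMap.mulLeft ℂ L ∘ₗ lift ρ) (LinearMap.mulRight ℂ L ∘ₗ lift ρ))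
    (by
      change L * lift ρ one = lift ρ one * L
      rw [lift_one, mul_one, one_mul])
    fun g _ x _ hx => by
      have hx' : L * lift ρ x = lift ρ x * L := hx
      change L * lift ρ (gn g x) = lift ρ (gn g x) * L
      rw [lift_gn hρ, ← mul_assoc, h, mul_assoc, hx', mul_assoc]
  exact this (mono_le (fun _ _ _ _ => trivial) (apiC_top y))

theorem words_ext_mem (I : Ideal (MvPolynomial E ℂ)) (g : E ⊕ O) {x : Sp E O}
    (hx : x ∈ extOf O (I.restrictScalars ℂ)) : gn g x ∈ extOf O (I.restrictScalars ℂ) := by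
  rcases g with e | o
  · exact H29.mem_extOf.2 fun S => I.mul_mem_left _ (H29.mem_extOf.1 hx S)
  · exact H29.wedge_mem_extOf o hx

theorem lift_res (hρ : ∀ g h, ρ g * ρ h = sg (g.isRight && h.isRight) • (ρ h * ρ g))
    (I : Ideal (MvPolynomial E ℂ)) {r : Module.End ℂ (Sp E O)} (h1 : r one = one)
    (h : ∀ g, A g → ∃ t, t - 1 ∈ I ∧ r * ρ g = gn g * mul t * r) {y : Sp E O}
    (hy : y ∈ mono (sup A)) : r (lift ρ y one) - y ∈ extOf O (I.restrictScalars ℂ) := by
  refine mono_ind (C := (extOf O (I.restrictScalars ℂ)).comap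
    (r ∘ₗ LinearMap.applyₗ one ∘ₗ lift ρ - LinearMap.id)) ?_ (fun g hg x _ hx => ?_) hy
  · change r (lift ρ one one) - one ∈ extOf O (I.restrictScalars ℂ)
    rw [lift_one, Module.End.one_apply, h1, sub_self]
    exact Submodule.zero_mem _
  · have hx' : r (lift ρ x one) - x ∈ extOf O (I.restrictScalars ℂ) := hx
    change r (lift ρ (gn g x) one) - gn g x ∈ extOf O (I.restrictScalars ℂ)
    obtain ⟨t, ht, e⟩ := h g hg
    rw [lift_gn hρ, Module.End.mul_apply, ← Module.End.mul_apply r, e, Module.End.mul_apply,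
      Module.End.mul_apply, ← map_sub]
    refine words_ext_mem I g (H29.mem_extOf.2 fun S => ?_)
    have h2 := I.add_mem (I.mul_mem_right (r (lift ρ x one) S) ht) (H29.mem_extOf.1 hx' S)
    rw [Pi.sub_apply] at h2
    change t * r (lift ρ x one) S - x S ∈ I
    rwa [sub_mul, one_mul, sub_add_sub_cancel] at h2

theorem cl_mul (π : MvPolynomial E ℂ →ₐ[ℂ] MvPolynomial E ℂ) (F : MvPolynomial E ℂ) :
    (π.toLinearMap.compLeft (Finset O) * mul F : Module.End ℂ (Sp E O)) =
      mul (π F) * π.toLinearMap.compLeft (Finset O) :=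
  LinearMap.ext fun x => funext fun S => map_mul π F (x S)

theorem cl_one (π : MvPolynomial E ℂ →ₐ[ℂ] MvPolynomial E ℂ) :
    π.toLinearMap.compLeft (Finset O) (one : Sp E O) = one := funext fun S => by
  change π (one (O := O) S) = _
  rw [one, Pi.single_apply, apply_ite π, map_one, map_zero]

theorem fin_rel {J : Type} [Fintype J] [DecidableEq J] {f : J → MvPolynomial (E ⊕ J) ℂ} {j : J}
    (π : MvPolynomial (E ⊕ J) ℂ →ₐ[ℂ] MvPolynomial (E ⊕ J) ℂ) {U s : MvPolynomial (E ⊕ J) ℂ}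
    (hs : s = f j * X (.inr j)) (hU : π U - 1 ∈ Ideal.span {s - 1}) {x y : Sp (E ⊕ J) (O ⊕ J)}
    (hy : y ∈ mono fun μ => μ (ev j) ≠ 0) (hx : mul U x ∈ mono fun μ => μ (ev j) ≠ 0)
    (h : π.toLinearMap.compLeft _ x - y ∈ extOf (O ⊕ J) ((Ideal.span {s - 1}).restrictScalars ℂ)) :
    y - π.toLinearMap.compLeft _ (mul U x) ∈ rel f := by
  intro S _
  change y S - π (mul U x S) ∈ Ideal.span _
  by_cases hS : .inr j ∈ S
  · refine Ideal.span_mono (s := {s - 1}) ?_ ?_
    · rintro _ rfl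
      exact ⟨j, hS, by rw [hs]⟩
    · have h2 : π (x S) - y S ∈ Ideal.span {s - 1} := H29.mem_extOf.1 h S
      have h3 := Ideal.add_mem _ (Ideal.mul_mem_right (π (x S)) _ hU) h2
      rwa [sub_mul, one_mul, sub_add_sub_cancel, ← neg_mem_iff, neg_sub, ← map_mul] at h3
  · have h3 : ∀ z ∈ mono fun μ : Gn E O J → ℕ => μ (ev j) ≠ 0, z S = 0 :=
      fun z hz => MvPolynomial.ext _ _ fun m => of_not_not fun h =>
        mem_mono.1 hz S m h (if_neg hS)
    rw [h3 y hy, h3 _ hx, map_zero, sub_zero]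
    exact Submodule.zero_mem _

end Pool.Agent.MP_8be872_ag.H49
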