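import Pool.Agent.MP_8be872_ag.H49.Sl3A
import Pool.Agent.MP_8be872_ag.H63.SpecC

/-! Weights, the gauge action and the restriction of the matrix of minors. -/

namespace Pool.Agent.MP_8be872_ag.H49

open H63 Finset H38 H56 MvPolynomial
open scoped Matrix

set_option linter.unusedSectionVars false

variable {Q : Quiv} {w v D : Fin Q.n → ℕ} {J : Type}

theorem ofM_gg {A : Type} (M : Kd Q → Nb Q w v D → Nb Q w v D → A) (t e : J → A) (k : Kd Q)
    (p q : Nb Q w v D) : ofM M t e (gg k p q) = M k p q := by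
  cases k <;> rfl

theorem gen_cases {P : Ix Q w v D J ⊕ Ix Q w v D J → Prop} (h1 : ∀ k p q, P (gg k p q))
    (h2 : ∀ j, P (.inl (.inr j))) (h3 : ∀ j, P (.inr (.inr j))) (g) : P g := by
  rcases g with (⟨τ, p, q⟩ | j) | (⟨τ, p, q⟩ | j)
  exacts [h1 (.inl τ) p q, h2 j, h1 (.inr τ) p q, h3 j]

theorem gg_isRight (k : Kd Q) (p q : Nb Q w v D) : (gg (J := J) k p q).isRight = k.isRight := by
  cases k <;> rfl

/-- The weight of a kind. -/
noncomputable def cK : Kd Q → G
  | .inl (.inl ε) => arrWt Q ε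
  | .inl (.inr true) => -qq
  | .inl (.inr false) => -hb - qq
  | .inr (.inl ε) => arrWt Q ε - qq
  | .inr (.inr true) => 0
  | .inr (.inr false) => -hb

theorem wt_gg (x : Nb Q w v D → G) (φ : J → G) (k : Kd Q) (p q : Nb Q w v D) :
    wt x φ (gg k p q) = x q - x p - cK k := by
  rcases k with (ε | _ | _) | (ε | _ | _) <;> rfl

theorem free_qq : free qq := fun i a => by
  change co _ (gen 0) = 0
  rw [co_gen, if_neg (by omega)]

theorem free_cK (k : Kd Q) : free (cK k) := fun i a => by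
  have h0 : co (3 * Nat.pair i a + 4) qq = 0 := free_qq i a
  have h1 : co (3 * Nat.pair i a + 4) tau = 0 := by rw [tau, co_gen, if_neg (by omega)]
  have h2 : ∀ e, co (3 * Nat.pair i a + 4) (tE e) = 0 := fun e => by
    rw [tE, co_gen, if_neg (by omega)]
  change co _ _ = 0
  rcases k with (⟨_ | e, _ | _⟩ | _ | _) | (⟨_ | e, _ | _⟩ | _ | _) <;>
    simp [cK, arrWt, hb, h0, h1, h2]

theorem xi_free {g : G} (h : free g) (τ : Bas Q D) : xi (.inl τ : Nb Q w v D) g = 0 := h _ _

theorem xi_bw (τ τ' : Bas Q D) :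
    xi (.inl τ : Nb Q w v D) (bw (.inl τ' : Nb Q w v D)) = if τ' = τ then 1 else 0 := by
  obtain ⟨i, x⟩ := τ
  obtain ⟨j, y⟩ := τ'
  change co _ (gen _) = _
  rw [co_gen]
  refine if_congr ⟨fun h => ?_, fun h => by rw [h]⟩ rfl rfl
  have h1 : Nat.pair j (v j + y) = Nat.pair i (v i + x) := by
    change 3 * Nat.pair j (v j + y) + 4 = 3 * Nat.pair i (v i + x) + 4 at h
    omega
  rw [Nat.pair_eq_pair] at h1
  obtain rfl : j = i := Fin.ext h1.1
  rw [show y = x from Fin.ext (by omega)]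

theorem xi_bw' (τ : Bas Q D) (p : Bas Q v ⊕ Bas Q w) :
    xi (.inl τ : Nb Q w v D) (bw (.inr p : Nb Q w v D)) = 0 := by
  obtain ⟨i, x⟩ := τ
  rcases p with ⟨j, y⟩ | ⟨j, y⟩
  · change co (3 * Nat.pair i (v i + x) + 4) (gen (3 * Nat.pair j y + 4)) = _
    rw [co_gen, if_neg fun h => ?_]
    have h1 : Nat.pair j y = Nat.pair i (v i + x) := by omega
    rw [Nat.pair_eq_pair] at h1
    obtain rfl : j = i := Fin.ext h1.1
    have := y.2
    omega
  · change co (3 * Nat.pair i (v i + x) + 4) (gen (3 * Nat.pair j y + 3)) = _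
    rw [co_gen, if_neg (by omega)]

/-- The weights of the new basis. -/
noncomputable def bn (lab : Bas Q D → Bas Q v × ℕ) : Nb Q w v D → G :=
  Sum.elim (fun τ => bw (.inr (.inl (lab τ).1) : Nb Q w v D) - ((lab τ).2 + 1) • qq)
    fun p => bw (.inr p : Nb Q w v D)

variable {σ : Bas Q v ≃ Bas Q v} {d : Bas Q v → ℕ} {lab : Bas Q D → Bas Q v × ℕ} {Λ : G →+ G}

theorem xi_bn (τ : Bas Q D) (p : Nb Q w v D) : xi (.inl τ : Nb Q w v D) (bn lab p) = 0 := by
  rcases p with p | p
  · rw [bn, Sum.elim_inl, map_sub, map_nsmul, xi_bw', xi_free free_qq, smul_zero, sub_zero]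
  · exact xi_bw' τ p

theorem lam_bn (h : LamOK (w := w) σ d lab Λ) (p : Nb Q w v D) : Λ (bn lab p) = xs σ d lab p := by
  rcases p with p | p
  · rw [bn, Sum.elim_inl, map_sub, map_nsmul, h.bas, h.fix _ free_qq]
    simp only [xs, lv]
    rw [sub_smul, add_sub_assoc, ← natCast_zsmul qq, Nat.cast_succ]
  · exact h.bas (.inr p)

theorem shape_tr {R R' : Nb Q w v D → Nb Q w v D → Prop} {k : Kd Q} {p q p' q' : Nb Q w v D}
    (h : shape R k p q) (h1 : vx p = vx p') (h2 : blk p = blk p') (h3 : vx q = vx q')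
    (h4 : blk q = blk q') (h5 : R p q → R' p' q') : shape R' k p' q' := by
  rcases k with (⟨_ | e, s⟩ | _ | _) | (⟨_ | e, s⟩ | _ | _) <;>
    simp only [shape, arrow, Sum.elim_inl, Sum.elim_inr, id, ← h1, ← h2, ← h3, ← h4] at h ⊢ <;>
    first | exact h | exact ⟨h.1, h5 h.2⟩

theorem offT_inl {a b : Nb Q w v D} (h : offT a b) :
    ∃ i x y, x ≠ y ∧ a = .inl ⟨i, x⟩ ∧ b = .inl ⟨i, y⟩ := by
  obtain ⟨h1, h2, h3, h4⟩ := h
  rcases a with ⟨i, x⟩ | a | a <;> rcases b with ⟨j, y⟩ | b | b <;>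
    try simp [blk] at h3 h4
  obtain rfl : i = j := h2
  exact ⟨i, x, y, fun h => h1 (by rw [h]), rfl, rfl⟩

theorem msk_br {A : Type} [Ring A] {R : Nb Q w v D → Nb Q w v D → Prop} (hR : R = rad ∨ R = radF)
    {a b : Nb Q w v D} (hab : offT a b) (Y : Kd Q → Matrix (Nb Q w v D) (Nb Q w v D) A) (k : Kd Q)
    (hY : ∀ p q, ¬ shape R k p q → Y k p q = 0) :
    msk R (fun k => Y k * Matrix.single a b 1 - Matrix.single a b 1 * Y k) k =
      Y k * Matrix.single a b 1 - Matrix.single a b 1 * Y k := by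
  obtain ⟨i, x, y, -, rfl, rfl⟩ := offT_inl hab
  ext p q
  unfold msk
  split_ifs with h
  · rfl
  rw [Matrix.sub_apply, eq_comm, sub_eq_zero]
  refine Eq.trans (b := 0) ?_ (Eq.symm ?_)
  · by_cases hq : q = .inl ⟨i, y⟩
    · rw [hq, Matrix.mul_single_apply_same, hY _ _ fun h' => h ?_, zero_mul]
      refine hq ▸ shape_tr h' rfl rfl rfl rfl fun h5 => ?_
      rcases hR with rfl | rfl
      · exact h5
      · exact h5.imp id fun ⟨_, _, _, h6, _⟩ => nomatch h6
    · exact Matrix.mul_single_apply_of_ne _ _ _ _ _ hq _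
  · by_cases hp : p = .inl ⟨i, x⟩
    · rw [hp, Matrix.single_mul_apply_same, hY _ _ fun h' => h ?_, mul_zero]
      refine hp ▸ shape_tr h' rfl rfl rfl rfl fun h5 => ?_
      rcases hR with rfl | rfl
      · exact h5
      · exact h5.imp id fun ⟨_, _, h6, _⟩ => nomatch h6
    · exact Matrix.single_mul_apply_of_ne _ _ _ _ _ hp _

variable (Q w v D J) in
/-- Polynomials in the even generators. -/
abbrev Pl := MvPolynomial (Ix Q w v D J) ℂ

/-- The matrix whose determinant is the minor. -/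
noncomputable def Mn (lab : Bas Q D → Bas Q v × ℕ) :
    Matrix (Bas Q D) (Bas Q D) (Pl Q w v D J) := Matrix.of fun τ τ' =>
  (Ypol (w := w) (D := D) ka ^ ((lab τ).2 + 1)) (.inr (.inl (lab τ).1)) (.inl τ')

theorem slice_row (hl : IsLab d lab) {p : Nb Q w v D} {τ : Bas Q D}
    (h : hp lab p = some (lab τ)) (q : Nb Q w v D) :
    YSpol (J := J) lab ka p q = if q = .inl τ then 1 else 0 := by
  have h1 : ¬ shS lab ka p q := fun h1 => by
    have := h1.2 rfl (.inl τ)
    simp [al0, h] at this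
  have h0 : YSpol (J := J) lab ka p q = C (al0 lab p q) := by
    simp only [YSpol, YS, if_true]
    exact (congrArg (_ + ·) (if_neg h1)).trans (add_zero _)
  rw [h0]
  rcases q with q | q
  · by_cases h2 : q = τ
    · simp [al0, h, h2]
    · simp [al0, h, h2, hl.inj.ne (Ne.symm h2)]
  · simp [al0]

theorem slice_pow (hl : IsLab d lab) (k : ℕ) : ∀ τ, (lab τ).2 = k → ∀ q : Nb Q w v D,
    (YSpol (J := J) lab ka ^ (k + 1)) (.inr (.inl (lab τ).1)) q = if q = .inl τ then 1 else 0 := by
  induction k with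
  | zero =>
    intro τ h q
    rw [zero_add, pow_one]
    exact slice_row hl (by rw [hp, ← h]) q
  | succ k ih =>
    intro τ h q
    obtain ⟨τ', h'⟩ := hl.surj (lab τ).1 k (by have := hl.lt τ; omega)
    have h1 := ih τ' (by rw [h'])
    rw [h'] at h1
    rw [pow_succ, Matrix.mul_apply]
    simp only [h1, ite_mul, one_mul, zero_mul, sum_ite_eq', mem_univ, if_true]
    exact slice_row hl (by rw [hp, h', ← h]) q

theorem res_Mn (hl : IsLab d lab)
    (h : (Ypol (w := w) (J := J) ka).map (resS lab) = YSpol lab ka) :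
    (Mn (w := w) (J := J) lab).map (resS lab) = 1 := by
  ext1 τ τ'
  have h1 := congrFun (congrFun (map_pow (resS (w := w) (J := J) lab).mapMatrix (Ypol ka)
    ((lab τ).2 + 1)) (.inr (.inl (lab τ).1))) (.inl τ')
  rw [AlgHom.mapMatrix_apply, AlgHom.mapMatrix_apply, h, slice_pow hl _ τ rfl] at h1
  refine h1.trans ?_
  simp [Matrix.one_apply, eq_comm]

theorem der_Mn (dd : Derivation ℂ (Pl Q w v D J) (Pl Q w v D J)) {a b : Bas Q D}
    (h : (Ypol ka).map dd = Ypol ka * Matrix.single (.inl a) (.inl b) 1 -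
      Matrix.single (.inl a) (.inl b) 1 * Ypol ka) (τ τ' : Bas Q D) :
    dd (Mn lab τ τ') = if τ' = b then Mn lab τ a else 0 := by
  have h1 := congrFun (congrFun (der_pow dd _ _ h ((lab τ).2 + 1)) (.inr (.inl (lab τ).1)))
    (.inl τ')
  rw [Matrix.sub_apply, Matrix.single_mul_apply_of_ne _ _ _ _ _ (by simp), sub_zero] at h1
  refine h1.trans ?_
  split_ifs with h2
  · rw [h2, Matrix.mul_single_apply_same, mul_one]
    rfl
  · exact Matrix.mul_single_apply_of_ne _ _ _ _ _ (by simpa using h2) _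

variable [Fintype J] [DecidableEq J]

/-- Generators that the lifts may use. -/
def Al (j₀ : J) (g : Ix Q w v D J ⊕ Ix Q w v D J) : Prop := AlG radF g ∨ g = .inl (.inr j₀)

variable {j₀ : J} {φ : J → G}

theorem Yg_mem (j₀ : J) (φ : J → G) (k : Kd Q) (p q : Nb Q w v D) :
    Yg radF k p q ∈ words fun μ =>
      (sup (Al j₀) μ ∧ ws (wt bw φ) μ = bw q - bw p - cK k) ∧ od μ = k.isRight := by
  unfold Yg msk
  split_ifs with h
  · exact gn_mem_words ⟨⟨sup_single.2 (Or.inl (by rwa [AlG, ofM_gg])), by rw [ws_single, wt_gg]⟩,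
      by rw [od_single, gg_isRight]⟩
  · exact Submodule.zero_mem _

theorem wt_pow (k : ℕ) : ∀ p q : Nb Q w v D,
    Wt (Al j₀) (wt bw φ) ((Ypol ka ^ k) p q) (bw q - bw p + k • qq) := by
  induction k with
  | zero =>
    intro p q
    rw [pow_zero, Matrix.one_apply]
    split_ifs with h
    · exact Wt.one.of_eq (by simp [h])
    · exact Wt.zero
  | succ k ih =>
    intro p q
    rw [pow_succ, Matrix.mul_apply]
    refine Wt.sum _ fun r _ => ?_
    have h1 : Wt (Al j₀) (wt bw φ) (Ypol ka r q) (bw q - bw r - cK (Q := Q) ka) := by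
      unfold Ypol msk
      split_ifs with h
      · exact Wt.var _ (Or.inl h)
      · exact Wt.zero
    refine ((ih p r).mul h1).of_eq ?_
    rw [succ_nsmul, cK]
    abel

theorem wt_Mn (τ τ' : Bas Q D) : Wt (Al j₀) (wt bw φ) (Mn (w := w) lab τ τ')
    (bw (.inl τ' : Nb Q w v D) - bn lab (.inl τ : Nb Q w v D)) :=
  (wt_pow _ _ _).of_eq (by rw [bn, Sum.elim_inl]; abel)

theorem wt_homog {F : Pl Q w v D J} {ψ : G} (h : Homog F ψ) : Wt (Al j₀) (wt bw φ) F ψ := by
  refine mul_mem_words_of_pol (mono_le (fun μ hμ => ⟨fun g hg => Or.inl ?_, ?_⟩) h)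
  · have h1 := (hμ.1 g hg).1
    revert h1
    refine gen_cases (P := fun g => AlG rad g → AlG radF g) (fun k p q => ?_) (fun _ => id)
      (fun _ => id) g
    rw [AlG, AlG, ofM_gg, ofM_gg]
    exact fun h1 => shape_tr h1 rfl rfl rfl rfl Or.inl
  · refine (ws_congr fun g hg => ?_).trans hμ.2
    have h1 := (hμ.1 g hg).1
    revert h1
    exact gen_cases (P := fun g => AlG rad g → wt bw φ g = wt bw 0 g)
      (fun k p q _ => by rw [wt_gg, wt_gg]) (fun _ => False.elim) (fun _ => False.elim) g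

/-- The values of `lie` on the generators. -/
noncomputable def dl0 (a b : Nb Q w v D) : Ix Q w v D J ⊕ Ix Q w v D J → OpQ Q w v D J :=
  ofM (msk radF fun k => Yg radF k * Matrix.single a b 1 - Matrix.single a b 1 * Yg radF k) 0 0

open Classical in
theorem dl0_gg (a b : Nb Q w v D) (k : Kd Q) (p q : Nb Q w v D) :
    dl0 (J := J) a b (gg k p q) = if shape radF k p q then
      (Yg radF k * Matrix.single a b 1 - Matrix.single a b 1 * Yg radF k :
        Matrix (Nb Q w v D) (Nb Q w v D) _) p q else 0 := ofM_gg _ _ _ _ _ _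

theorem dl0_par (a b : Nb Q w v D) (g : Ix Q w v D J ⊕ Ix Q w v D J) :
    dl0 a b g ∈ words fun μ => od μ = xor g.isRight false := by
  refine gen_cases (P := fun g => dl0 a b g ∈ words fun μ => od μ = xor g.isRight false)
    (fun k p q => ?_) (fun _ => Submodule.zero_mem _) (fun _ => Submodule.zero_mem _) g
  have h1 : ∀ p q : Nb Q w v D, Yg (J := J) radF k p q ∈ words fun μ => od μ = k.isRight := by
    intro p q
    unfold Yg msk
    split_ifs
    · exact gn_mem_words (by rw [od_single, gg_isRight])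
    · exact Submodule.zero_mem _
  rw [dl0_gg, gg_isRight, Bool.xor_false]
  split_ifs
  · refine Submodule.sub_mem _ ?_ ?_
    · by_cases hq : q = b
      · rw [hq, Matrix.mul_single_apply_same, mul_one]
        exact h1 _ _
      · rw [Matrix.mul_single_apply_of_ne _ _ _ _ _ hq]
        exact Submodule.zero_mem _
    · by_cases hp : p = a
      · rw [hp, Matrix.single_mul_apply_same, one_mul]
        exact h1 _ _
      · rw [Matrix.single_mul_apply_of_ne _ _ _ _ _ hp]
        exact Submodule.zero_mem _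
  · exact Submodule.zero_mem _

theorem lie_gn (a b : Nb Q w v D) (g : Ix Q w v D J ⊕ Ix Q w v D J) :
    lie radF a b * gn g - gn g * lie radF a b = dl0 a b g := by
  have := vf_gn (dl0_par a b) g
  rwa [Bool.false_and, sg_false, one_smul] at this

theorem lie_Yg {a b : Nb Q w v D} (hab : offT a b) (k : Kd Q) :
    Matrix.scalar _ (lie (J := J) radF a b) * Yg radF k - Yg radF k * Matrix.scalar _ (lie radF a b) =
      Yg radF k * Matrix.single a b 1 - Matrix.single a b 1 * Yg radF k := by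
  rw [← msk_br (Or.inr rfl) hab (Yg radF) k fun p q h => if_neg h]
  ext1 p q
  rw [Matrix.sub_apply, Matrix.scalar_apply, Matrix.diagonal_mul, Matrix.mul_diagonal]
  by_cases h : shape radF k p q
  · rw [show Yg (J := J) radF k p q = gn (gg k p q) from if_pos h, lie_gn]
    exact ofM_gg _ _ _ _ _ _
  · rw [show Yg (J := J) radF k p q = 0 from if_neg h, mul_zero, zero_mul, sub_zero]
    exact (if_neg h).symm

theorem lie_der (hG : Glob2At Q w v D J) {a b : Nb Q w v D} (hab : offT a b) :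
    ∃ dd : Derivation ℂ (Pl Q w v D J) (Pl Q w v D J),
      (∀ F, lie radF a b * mul F - mul F * lie radF a b = mul (dd F)) ∧
      (Ypol ka).map dd = Ypol ka * Matrix.single a b 1 - Matrix.single a b 1 * Ypol ka := by
  obtain ⟨dd, h1, h2⟩ := hG.der a b
  rw [← hG.radT a b hab.2.2.1 hab.2.2.2] at h1
  refine ⟨dd, fun F => ?_, (h2 ka rfl).trans (msk_br (Or.inl rfl) hab _ _ fun p q h => if_neg h)⟩
  have h3 : ∀ g, dl0 (J := J) a b g ∈ words fun _ => True := fun g =>
    words_le (fun _ _ => trivial) (dl0_par a b g)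
  refine sub_eq_zero.1 (words_ext (P := fun _ => True) (Submodule.sub_mem _ ?_ (mul_mem_true _)) ?_)
  · change vf (dl0 a b) * _ - _ * vf (dl0 a b) ∈ _
    rw [vf_mul h3]
    exact Submodule.sum_mem _ fun e _ =>
      mul_mem_words (mul_mem_true _) (h3 _) fun _ _ _ _ => trivial
  · rw [LinearMap.sub_apply, LinearMap.sub_apply, Module.End.mul_apply, Module.End.mul_apply,
      mul_one_eq, mul_one_eq, h1, show lie (J := J) radF a b one = 0 from vf_one, map_zero,
      sub_zero, sub_self]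

end Pool.Agent.MP_8be872_ag.H49
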