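import Pool.Agent.MP_8be872_ag.H49.Sl3B

/-! Invariant units and the change of basis on the chart. -/

namespace Pool.Agent.MP_8be872_ag.H49

open H63 Finset H38 H56 MvPolynomial
open scoped Matrix

set_option linter.unusedSectionVars false

theorem mem_of_vert {n : ℕ} {D : Fin n → ℕ} (S : AddSubmonoid ((Σ i, Fin (D i)) → ℤ))
    (h1 : ∀ i, (fun τ => if τ.1 = i then 1 else 0) ∈ S) (h2 : (fun _ => -1) ∈ S)
    (m : (Σ i, Fin (D i)) → ℤ) (hm : ∀ τ τ', τ.1 = τ'.1 → m τ = m τ') : m ∈ S := by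
  classical
  obtain ⟨c, hc⟩ : ∃ c : Fin n → ℤ, ∀ τ, m τ = c τ.1 :=
    ⟨fun i => if h : ∃ τ : Σ i, Fin (D i), τ.1 = i then m h.choose else 0, fun τ => by
      have h : ∃ τ' : Σ i, Fin (D i), τ'.1 = τ.1 := ⟨τ, rfl⟩
      simp only [dif_pos h]
      exact hm _ _ h.choose_spec.symm⟩
  have h3 := S.add_mem (S.sum_mem fun i (_ : i ∈ univ) =>
    S.nsmul_mem (h1 i) (c i + (∑ i, (c i).natAbs : ℕ)).toNat) (S.nsmul_mem h2 (∑ i, (c i).natAbs))
  refine (funext fun τ => ?_ : _ = m) ▸ h3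
  have h4 : (c τ.1).natAbs ≤ ∑ i, (c i).natAbs :=
    single_le_sum (f := fun i => (c i).natAbs) (fun _ _ => Nat.zero_le _) (mem_univ _)
  generalize ∑ i, (c i).natAbs = N at h4
  simp only [Pi.add_apply, Finset.sum_apply, Pi.smul_apply, smul_ite, smul_zero, sum_ite_eq,
    mem_univ, if_true, hc]
  rw [nsmul_eq_mul, nsmul_eq_mul]
  omega

variable {Q : Quiv} {w v D : Fin Q.n → ℕ} {J : Type} [Fintype J] [DecidableEq J]
  {σ : Bas Q v ≃ Bas Q v} {d : Bas Q v → ℕ} {lab : Bas Q D → Bas Q v × ℕ} {Λ : G →+ G}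
  {j₀ : J} {φ : J → G} {F F' s t : Pl Q w v D J} {ψ : G}

/-- Invariants of `sl(T)`. -/
def Inv (F : Pl Q w v D J) : Prop :=
  ∀ a b : Nb Q w v D, offT a b → lie radF a b * mul F = mul F * lie radF a b

theorem Inv.mul (h : Inv F) (h' : Inv F') : Inv (F * F') := fun a b hab => by
  rw [mul_mul, ← mul_assoc, h a b hab, mul_assoc, h' a b hab, mul_assoc]

theorem Inv.one : Inv (1 : Pl Q w v D J) := fun a b _ => by
  rw [show (H63.mul 1 : OpQ Q w v D J) = 1 from map_one mulA, mul_one, one_mul]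

theorem inv_semi (h : SemiT F ψ) : Inv F := fun a b hab =>
  (vf_mul_comm_iff (fun g => words_le (fun _ _ => trivial) (dl0_par a b g)) F).2 (h.2.2 a b hab)

theorem inv_T (j : J) : Inv (X (.inr j) : Pl Q w v D J) := fun a b _ =>
  sub_eq_zero.1 (lie_gn a b (.inl (.inr j)))

theorem Inv.der {dd : Derivation ℂ (Pl Q w v D J) (Pl Q w v D J)} {a b : Nb Q w v D} (h : Inv F)
    (hab : offT a b)
    (hd : ∀ F, lie radF a b * H63.mul F - H63.mul F * lie radF a b = H63.mul (dd F)) : dd F = 0 := by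
  have h1 := congrArg (fun m : OpQ Q w v D J => m H63.one ∅) (hd F)
  rw [h a b hab, sub_self, mul_one_eq] at h1
  simpa [pol] using h1.symm

theorem inv_of_der (hG : Glob2At Q w v D J)
    (h : ∀ (dd : Derivation ℂ (Pl Q w v D J) (Pl Q w v D J)) i (x y : Fin (D i)), x ≠ y →
      (∀ τ τ', dd (Mn lab τ τ') = if τ' = ⟨i, y⟩ then Mn lab τ ⟨i, x⟩ else 0) → dd F = 0) :
    Inv F := fun a b hab => by
  obtain ⟨dd, h1, h2⟩ := lie_der hG hab
  obtain ⟨i, x, y, hxy, rfl, rfl⟩ := offT_inl hab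
  rw [← sub_eq_zero, h1, h dd i x y hxy (der_Mn dd h2)]
  exact map_zero mulA

variable (lab Λ j₀ φ s) in
/-- An invariant that restricts to one, with exponents `m`. -/
structure Un (m : Bas Q D → ℤ) (U : Pl Q w v D J) (ψ : G) : Prop where
  wt : Wt (Al j₀) (wt bw φ) U ψ
  xi : ∀ τ, xi (.inl τ : Nb Q w v D) ψ = m τ
  lam : Λ ψ = 0
  inv : Inv U
  res : resS lab U - 1 ∈ Ideal.span {s - 1}

variable (lab Λ j₀ φ s) in
/-- The exponents that occur. -/
def UnS : AddSubmonoid (Bas Q D → ℤ) where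
  carrier := {m | ∃ U ψ, Un lab Λ j₀ φ s m U ψ}
  zero_mem' := ⟨1, 0, Wt.one, fun _ => map_zero _, map_zero _, Inv.one, by simp⟩
  add_mem' := fun ⟨U, ψ, h⟩ ⟨U', ψ', h'⟩ => ⟨U * U', ψ + ψ', h.wt.mul h'.wt,
    fun τ => by rw [map_add, h.xi, h'.xi, Pi.add_apply], by rw [map_add, h.lam, h'.lam, add_zero],
    h.inv.mul h'.inv, by
      have := Ideal.add_mem _ (Ideal.mul_mem_left _ (resS lab U) h'.res) h.res
      rwa [mul_sub, mul_one, sub_add_sub_cancel, ← map_mul] at this⟩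

theorem lam_sub (hΛ : LamOK (w := w) σ d lab Λ) (p : Nb Q w v D) : Λ (bw p - bn lab p) = 0 := by
  rw [map_sub, hΛ.bas, lam_bn hΛ, sub_self]

theorem un_vert (hG : Glob2At Q w v D J) (hΛ : LamOK (w := w) σ d lab Λ)
    (hM : (Mn (w := w) (J := J) lab).map (resS lab) = 1) (i : Fin Q.n) :
    (fun τ => if τ.1 = i then 1 else 0) ∈ UnS lab Λ j₀ φ s := by
  refine ⟨((Mn lab).submatrix (Sigma.mk i) (Sigma.mk i)).det, _,
    Wt.det (a := fun x => bw (.inl ⟨i, x⟩ : Nb Q w v D))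
      (b := fun x => bn lab (.inl ⟨i, x⟩ : Nb Q w v D)) fun x y => wt_Mn _ _, fun τ => ?_, ?_,
    inv_of_der (lab := lab) hG fun dd i' x y hxy h => der_det_zero dd _ fun c => ?_, ?_⟩
  · simp only [map_sum, map_sub, xi_bw, xi_bn, sub_zero]
    obtain ⟨j, y⟩ := τ
    by_cases h : j = i
    · subst h
      simp
    · simp [h, Ne.symm h]
  · rw [map_sum]
    exact sum_eq_zero fun x _ => lam_sub hΛ _
  · by_cases h1 : (⟨i, c⟩ : Bas Q D) = ⟨i', y⟩
    · obtain ⟨rfl, h2⟩ := Sigma.mk.inj h1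
      obtain rfl := eq_of_heq h2
      exact Or.inr ⟨x, hxy, fun r => (h _ _).trans (if_pos rfl)⟩
    · exact Or.inl fun r => (h _ _).trans (if_neg h1)
  · rw [AlgHom.map_det, AlgHom.mapMatrix_apply, ← Matrix.submatrix_map, hM,
      Matrix.submatrix_one _ sigma_mk_injective, Matrix.det_one, sub_self]
    exact Ideal.zero_mem _

theorem det_ne (hM : (Mn (w := w) (J := J) lab).map (resS lab) = 1) :
    resS lab (Mn (w := w) (J := J) lab).det = 1 ∧ (Mn (w := w) (J := J) lab).det ≠ 0 := by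
  have h : resS lab (Mn (w := w) (J := J) lab).det = 1 := by
    rw [AlgHom.map_det, AlgHom.mapMatrix_apply, hM, Matrix.det_one]
  exact ⟨h, fun h0 => by simp [h0] at h⟩

theorem res_T (j : J) : resS lab (X (.inr j) : Pl Q w v D J) = X (.inr j) := aeval_X _ _

theorem un_inv (hΛ : LamOK (w := w) σ d lab Λ)
    (hM : (Mn (w := w) (J := J) lab).map (resS lab) = 1) (hF : SemiT F ψ)
    (hf : Homog (F * (Mn lab).det) (φ j₀)) :
    Un lab Λ j₀ φ (resS lab (F * X (.inr j₀))) (fun _ => -1) (F * X (.inr j₀))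
      (-∑ τ, (bw (.inl τ : Nb Q w v D) - bn lab (.inl τ : Nb Q w v D))) := by
  refine ⟨?_, fun τ => ?_, ?_, (inv_semi hF).mul (inv_T j₀), Ideal.subset_span rfl⟩
  · by_cases h0 : F = 0
    · rw [h0, zero_mul]
      exact Wt.zero
    · have h1 := (wt_homog (j₀ := j₀) (φ := φ) hf).uniq ((wt_homog hF.1).mul
        (Wt.det fun τ τ' => wt_Mn τ τ')) (mul_ne_zero h0 (det_ne hM).2)
      refine ((wt_homog hF.1).mul (Wt.var _ (Or.inr rfl))).of_eq ?_
      change ψ + -φ j₀ = _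
      rw [h1]
      abel
  · simp [map_sum, xi_bw, xi_bn]
  · rw [map_neg, map_sum, sum_eq_zero fun x _ => lam_sub hΛ _, neg_zero]

theorem wt_blk {M : Matrix (Bas Q D) (Bas Q D) (Pl Q w v D J)} {x y : Nb Q w v D → G}
    (h : ∀ τ τ', Wt (Al j₀) (wt bw φ) (M τ τ') (x (.inl τ') - y (.inl τ)))
    (h' : ∀ p, x (.inr p) = y (.inr p)) (p q : Nb Q w v D) :
    Wt (Al j₀) (wt bw φ) (Matrix.fromBlocks M 0 0 1 p q) (x q - y p) := by
  rcases p with p | p <;> rcases q with q | q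
  · exact h p q
  · exact Wt.zero
  · exact Wt.zero
  · rw [Matrix.fromBlocks_apply₂₂, Matrix.one_apply]
    split_ifs with h1
    · exact Wt.one.of_eq (by rw [h1, h', sub_self])
    · exact Wt.zero

variable (lab) in
/-- The change of basis. -/
noncomputable def gP : Matrix (Nb Q w v D) (Nb Q w v D) (Pl Q w v D J) :=
  Matrix.fromBlocks (Mn lab) 0 0 1

variable (lab) in
/-- Its inverse on the chart. -/
noncomputable def gN (t : Pl Q w v D J) : Matrix (Nb Q w v D) (Nb Q w v D) (Pl Q w v D J) :=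
  Matrix.fromBlocks (t • (Mn lab).adjugate) 0 0 1

theorem wt_gP (p q : Nb Q w v D) : Wt (Al j₀) (wt bw φ) (gP lab p q) (bw q - bn lab p) :=
  wt_blk wt_Mn (fun _ => rfl) p q

theorem wt_gN (h : Wt (Al j₀) (wt bw φ) t
    (-∑ τ, (bw (.inl τ : Nb Q w v D) - bn lab (.inl τ : Nb Q w v D)))) (p q : Nb Q w v D) :
    Wt (Al j₀) (wt bw φ) (gN lab t p q) (bn lab q - bw p) :=
  wt_blk (fun τ τ' => (h.mul (Wt.adj (fun τ τ' => wt_Mn τ τ') τ τ')).of_eq
    (neg_add_cancel_left _ _)) (fun _ => rfl) p q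

theorem single_inl {R m n : Type} [DecidableEq m] [DecidableEq n] [Zero R] (a b : m) (r : R) :
    (Matrix.single (.inl a) (.inl b) r : Matrix (m ⊕ n) (m ⊕ n) R) =
      Matrix.fromBlocks (Matrix.single a b r) 0 0 0 := by
  ext (p | p) (q | q) <;> simp [Matrix.single_apply]

theorem der_g (hM : (Mn (w := w) (J := J) lab).map (resS lab) = 1)
    (dd : Derivation ℂ (Pl Q w v D J) (Pl Q w v D J)) {a b : Bas Q D} (hab : a ≠ b)
    (h : (Ypol ka).map dd = Ypol ka * Matrix.single (.inl a) (.inl b) 1 -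
      Matrix.single (.inl a) (.inl b) 1 * Ypol ka) (ht : dd t = 0) :
    (gP lab).map dd = gP lab * Matrix.single (.inl a) (.inl b) 1 ∧
      (gN lab t).map dd = -(Matrix.single (.inl a) (.inl b) 1 * gN lab t) := by
  have h1 : (Mn lab).map dd = Mn lab * Matrix.single a b 1 := by
    ext1 τ τ'
    rw [Matrix.map_apply, der_Mn dd h]
    split_ifs with h2
    · rw [h2, Matrix.mul_single_apply_same, mul_one]
    · exact (Matrix.mul_single_apply_of_ne _ _ _ _ _ h2 _).symm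
  have h2 := der_adj dd _ _ h1 (der_det_zero dd _ fun c => by
    by_cases hc : c = b
    · exact Or.inr ⟨a, hc ▸ hab, fun r => (der_Mn dd h _ _).trans (if_pos hc)⟩
    · exact Or.inl fun r => (der_Mn dd h _ _).trans (if_neg hc)) (det_ne hM).2
  have h3 : (t • (Mn lab).adjugate).map dd = t • (Mn lab).adjugate.map dd := by
    ext1 τ τ'
    simp [ht]
  constructor
  · rw [gP, single_inl, Matrix.fromBlocks_map, Matrix.fromBlocks_multiply, h1, der_one]
    simp
  · rw [gN, single_inl, Matrix.fromBlocks_map, Matrix.fromBlocks_multiply, h3, h2, der_one,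
      Matrix.fromBlocks_neg]
    simp

theorem res_g (hM : (Mn (w := w) (J := J) lab).map (resS lab) = 1) :
    (gP (w := w) (J := J) lab).map (resS lab) = 1 ∧ (gN lab t).map (resS lab) =
      Matrix.diagonal (Sum.elim (fun _ => resS lab t) fun _ => 1) := by
  have h1 : (t • (Mn lab).adjugate).map (resS lab) = Matrix.diagonal fun _ => resS lab t := by
    have h2 := (resS (w := w) (J := J) lab).map_adjugate (Mn lab)
    rw [AlgHom.mapMatrix_apply, AlgHom.mapMatrix_apply, hM, Matrix.adjugate_one] at h2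
    ext1 τ τ'
    have h3 := congrFun (congrFun h2 τ) τ'
    rw [Matrix.map_apply] at h3
    rw [Matrix.map_apply, Matrix.smul_apply, smul_eq_mul, map_mul, h3, Matrix.one_apply,
      Matrix.diagonal_apply, mul_ite, mul_one, mul_zero]
  constructor
  · rw [gP, Matrix.fromBlocks_map, hM]
    simp
  · rw [gN, Matrix.fromBlocks_map, h1, ← Matrix.fromBlocks_diagonal]
    simp

end Pool.Agent.MP_8be872_ag.H49
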